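import Pool.Agent.Helper42.FR.Stmts

set_option autoImplicit false

namespace Pool.Agent.Helper55.FR

open Matrix Pool.Agent.Helper81.Fmr Pool.Agent.Helper42.FR

universe u

/-- the lower bound for the rank of `e` -/
theorem st_ALG {F : Type u} [Field F] (hRC : ST_RC F) (hNUM : ST_NUM) : ST_ALG F := by
  obtain ⟨C, hC⟩ := hRC
  refine ⟨C, fun b d s s' t t' h h' k e hr => ?_⟩
  have key := hC b d s s' t t' h h' k e hr
  have hle : ∀ n, (fn s s' e n).rank ≤ b := fun n => by
    have h0 := Matrix.rank_le_card_width (fn s s' e n)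
    simpa using h0
  have hn := hNUM (fun n => ((fn s s' e n).rank : ℝ)) b ((C : ℝ) * d) (by positivity)
    (fun n => ⟨by positivity, by exact_mod_cast hle n⟩)
    (fun n => by
      obtain ⟨h1, h2⟩ := key n
      have h1' : ((fn s s' e n).rank : ℝ) ≤ 4 * ((fn s s' e (n + 1)).rank : ℝ) +
          ((fn s s' e (n + 2)).rank : ℝ) + (C : ℝ) * 3 ^ n * d := by exact_mod_cast h1
      have h2' : 4 * ((fn s s' e (n + 1)).rank : ℝ) + ((fn s s' e (n + 2)).rank : ℝ) ≤
          ((fn s s' e n).rank : ℝ) + (C : ℝ) * 3 ^ n * d := by exact_mod_cast h2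
      rw [abs_le]
      constructor <;> nlinarith [h1', h2'])
  have h0 : ((fn s s' e 0).rank : ℝ) = b := by
    have : (fn s s' e 0).rank = b := by
      change (1 : Matrix (Fin b) (Fin b) F).rank = b
      rw [Matrix.rank_one]; simp
    exact_mod_cast this
  have h1 : ((fn s s' e 1).rank : ℝ) ≤ e.rank := by
    have : (fn s s' e 1).rank ≤ e.rank := by
      change ((1 : Matrix (Fin b) (Fin b) F) * (s * e * s')).rank ≤ e.rank
      rw [one_mul]
      exact (Matrix.rank_mul_le_left _ _).trans (Matrix.rank_mul_le_right _ _)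
    exact_mod_cast this
  have hn' : |((fn s s' e 1).rank : ℝ) - (Real.sqrt 5 - 2) * ((fn s s' e 0).rank : ℝ)| ≤
    (C : ℝ) * d := hn
  rw [h0, abs_le] at hn'
  linarith [hn'.1]

end Pool.Agent.Helper55.FR
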